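import Pool.Agent.U514.TG.Stm

/-!
# Project TG, package GRID (helper429): the layout of a superblock satisfies the grid conditions
-/

set_option autoImplicit false

namespace Pool.Agent.U429.TG.GRID

open Finset
open Pool.Agent.U514.TG

theorem step_lt {n d : ℕ} (h : n % d + 1 < d) : (n + 1) / d = n / d ∧ (n + 1) % d = n % d + 1 := by
  have hd : 0 < d := by omega
  rw [Nat.div_mod_unique hd]
  refine ⟨?_, h⟩
  have := Nat.div_add_mod n d
  omega

theorem step_eq {n d : ℕ} (hd : 0 < d) (h : n % d + 1 = d) :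
    (n + 1) / d = n / d + 1 ∧ (n + 1) % d = 0 := by
  rw [Nat.div_mod_unique hd]
  refine ⟨?_, hd⟩
  have := Nat.div_add_mod n d
  rw [Nat.mul_add]
  omega

section

variable {F V : Type} [Field F] (p : Par F V)

theorem choose_eq {col : ℕ} (h : ∃ τ : Fin p.nT, p.InStrip τ col) {τ : Fin p.nT}
    (hτ : p.InStrip τ col) : h.choose = τ :=
  Fin.ext (h.choose_spec.1.symm.trans hτ.1)

theorem t_le (hp : p.Good) (τ : Fin p.nT) : p.t τ ≤ p.m :=
  Nat.le_of_dvd hp.m_pos (hp.t_dvd τ)

theorem c_lt_W (hp : p.Good) {τ : Fin p.nT} {col : ℕ} (h : p.InStrip τ col) :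
    p.cOf col + 1 < p.W := by
  have h1 : p.t τ ^ 2 ≤ p.m ^ 2 := Nat.pow_le_pow_left (t_le p hp τ) 2
  have h2 := h.2.2.2
  show p.cOf col + 1 < 3 * p.m ^ 2 + 1
  omega

/-- the next column of a strip is in the same slot -/
theorem next (hp : p.Good) {τ : Fin p.nT} {col : ℕ} (h : p.InStrip τ col) :
    p.tauOf (col + 1) = p.tauOf col ∧ p.Iof (col + 1) = p.Iof col ∧ p.Jof (col + 1) = p.Jof col ∧
      p.cOf (col + 1) = p.cOf col + 1 := by
  obtain ⟨h1, h2⟩ := step_lt (c_lt_W p hp h)
  unfold Par.tauOf Par.Iof Par.Jof Par.cOf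
  rw [h1, h2]
  exact ⟨rfl, rfl, rfl, rfl⟩

theorem prev {τ : Fin p.nT} {col : ℕ} (h : p.InStrip τ (col + 1)) (hc : p.cOf (col + 1) ≠ 0) :
    p.InStrip τ col := by
  have hW : 0 < p.W := Nat.succ_pos _
  have hne : p.cOf col + 1 < p.W := by
    by_contra hlt
    have hlt' : col % p.W < p.W := Nat.mod_lt _ hW
    have : col % p.W + 1 = p.W := by
      have : ¬ (col % p.W + 1 < p.W) := hlt
      omega
    exact hc (step_eq hW this).2
  obtain ⟨h1, h2⟩ := step_lt hne
  obtain ⟨a1, a2, a3, a4⟩ := h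
  unfold Par.tauOf at a1
  unfold Par.Iof at a2
  unfold Par.Jof at a3
  unfold Par.cOf at a4
  rw [h1] at a1 a2 a3
  rw [h2] at a4
  exact ⟨a1, a2, a3, by unfold Par.cOf; omega⟩

theorem mem_region {c r : ℕ} : (c, r) ∈ p.region ↔
    (c < p.width ∧ r < p.top ∧ ∃ τ : Fin p.nT, p.InStrip τ c ∧ p.start τ ≤ r) ∨
      (c < p.width ∧ p.top ≤ r ∧ r < p.top + (p.nX * p.m) ^ 2) := by
  unfold Par.region
  simp only [mem_union, mem_filter, mem_product, mem_range, mem_Ico, and_assoc]

theorem start_top (hp : p.Good) (τ : Fin p.nT) : p.start τ + 3 * p.t τ * p.N = p.top := by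
  unfold Par.start Par.top
  have h := t_le p hp τ
  rw [← Nat.add_mul, ← Nat.mul_add, Nat.sub_add_cancel h]

theorem sx_zero (τ : Fin p.nT) (I J c : ℕ) : p.sx τ I J c 0 0 = 0 := by
  unfold Par.sx
  by_cases h1 : c < p.t τ ^ 2
  · simp [h1]
  · by_cases h2 : (c - p.t τ ^ 2) % 2 = 0
    · simp [h1, h2]
    · simp [h1, h2, Par.M]

theorem sy_zero (hp : p.Good) (τ : Fin p.nT) (I J j ρ : ℕ) : p.sy τ I J 0 j ρ = 0 := by
  have ht := hp.t_pos τ
  have h0 : 0 < p.t τ ^ 2 := by positivity
  unfold Par.sy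
  have h1 : ¬ p.t τ ^ 2 ≤ 0 := by omega
  by_cases h2 : ρ < p.t τ
  · simp [h2, h0, Par.SL]
  · by_cases h3 : (ρ - p.t τ) % 2 = 0
    · simp [h2, h3, h0, Par.SR]
    · simp only [h2, h3, h1, if_false, false_and]

end

theorem t_GRID : S_LOCX → S_LOCY → S_GRID := by
  intro hX hY F V _ p hp
  have htop : 0 < p.top := by
    have := hp.m_pos
    have := hp.N_pos
    unfold Par.top
    positivity
  -- the data of the grid in a strip
  have xs : ∀ {τ : Fin p.nT} {c r : ℕ}, p.InStrip τ c → r < p.top → p.grid.x (c, r) =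
      p.sx τ (p.Iof c) (p.Jof c) (p.cOf c) ((r - p.start τ) / (3 * p.t τ))
        ((r - p.start τ) % (3 * p.t τ)) := by
    intro τ c r h hr
    have hex : ∃ τ : Fin p.nT, p.InStrip τ c := ⟨τ, h⟩
    have hne : ¬ p.top ≤ r := by omega
    show (if p.top ≤ r then p.ox c else if h : ∃ τ : Fin p.nT, p.InStrip τ c then
      (let τ := h.choose
       p.sx τ (p.Iof c) (p.Jof c) (p.cOf c) ((r - p.start τ) / (3 * p.t τ))
        ((r - p.start τ) % (3 * p.t τ)))
      else 0) = _
    rw [if_neg hne, dif_pos hex, choose_eq p hex h]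
  have ys : ∀ {τ : Fin p.nT} {c r : ℕ}, p.InStrip τ c → r < p.top → p.grid.y (c, r) =
      p.sy τ (p.Iof c) (p.Jof c) (p.cOf c) ((r - p.start τ) / (3 * p.t τ))
        ((r - p.start τ) % (3 * p.t τ)) := by
    intro τ c r h hr
    have hex : ∃ τ : Fin p.nT, p.InStrip τ c := ⟨τ, h⟩
    have hne : ¬ p.top ≤ r := by omega
    show (if p.top ≤ r then ∑ col ∈ range c, MvPolynomial.C (p.od col (r - p.top)) * p.ox col
      else if h : ∃ τ : Fin p.nT, p.InStrip τ c then
      (let τ := h.choose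
       p.sy τ (p.Iof c) (p.Jof c) (p.cOf c) ((r - p.start τ) / (3 * p.t τ))
        ((r - p.start τ) % (3 * p.t τ)))
      else 0) = _
    rw [if_neg hne, dif_pos hex, choose_eq p hex h]
  have ts : ∀ {τ : Fin p.nT} {c r : ℕ}, p.InStrip τ c → r < p.top → p.grid.tile (c, r) =
      p.stile τ (p.Iof c) (p.Jof c) (p.cOf c) ((r - p.start τ) / (3 * p.t τ))
        ((r - p.start τ) % (3 * p.t τ)) := by
    intro τ c r h hr
    have hex : ∃ τ : Fin p.nT, p.InStrip τ c := ⟨τ, h⟩
    have hne : ¬ p.top ≤ r := by omega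
    show (if p.top ≤ r then ⟨false, 1, 0, 1, p.od c (r - p.top), 0, .inr 0⟩
      else if h : ∃ τ : Fin p.nT, p.InStrip τ c then
      (let τ := h.choose
       p.stile τ (p.Iof c) (p.Jof c) (p.cOf c) ((r - p.start τ) / (3 * p.t τ))
        ((r - p.start τ) % (3 * p.t τ)))
      else ⟨false, 1, 0, 1, 0, 0, .inr 0⟩) = _
    rw [if_neg hne, dif_pos hex, choose_eq p hex h]
  -- the data in the output rows
  have xo : ∀ {c r : ℕ}, p.top ≤ r → p.grid.x (c, r) = p.ox c := by
    intro c r hr
    exact if_pos hr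
  have yo : ∀ {c r : ℕ}, p.top ≤ r → p.grid.y (c, r) =
      ∑ col ∈ range c, MvPolynomial.C (p.od col (r - p.top)) * p.ox col := by
    intro c r hr
    exact if_pos hr
  have tto : ∀ {c r : ℕ}, p.top ≤ r → p.grid.tile (c, r) =
      ⟨false, 1, 0, 1, p.od c (r - p.top), 0, .inr 0⟩ := by
    intro c r hr
    exact if_pos hr
  have oxs : ∀ {τ : Fin p.nT} {c : ℕ}, p.InStrip τ c → p.ox c =
      p.sx τ (p.Iof c) (p.Jof c) (p.cOf c) p.N 0 := by
    intro τ c h
    have hex : ∃ τ : Fin p.nT, p.InStrip τ c := ⟨τ, h⟩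
    unfold Par.ox
    rw [dif_pos hex]
    show p.sx hex.choose (p.Iof c) (p.Jof c) (p.cOf c) p.N 0 = _
    rw [choose_eq p hex h]
  have strip : ∀ {c r : ℕ}, (c, r) ∈ p.region → r < p.top →
      c < p.width ∧ ∃ τ : Fin p.nT, p.InStrip τ c ∧ p.start τ ≤ r := by
    intro c r h hr
    rcases (mem_region p).1 h with h | h
    · exact ⟨h.1, h.2.2⟩
    · omega
  constructor
  · -- x_eq
    intro c r h1 h2
    by_cases hr : p.top ≤ r
    · rw [xo (by omega : p.top ≤ r + 1), xo hr, tto hr]
      simp [Tile.outX]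
    · have hr' : r < p.top := by omega
      obtain ⟨-, τ, hτ, hs⟩ := strip h1 hr'
      have ht3 : 0 < 3 * p.t τ := by
        have := hp.t_pos τ
        omega
      have hρ : (r - p.start τ) % (3 * p.t τ) < 3 * p.t τ := Nat.mod_lt _ ht3
      have hloc := hX F V p hp τ (p.Iof c) (p.Jof c) (p.cOf c) ((r - p.start τ) / (3 * p.t τ))
        ((r - p.start τ) % (3 * p.t τ)) hτ.2.2.2 hρ
      rw [ts hτ hr', xs hτ hr', ys hτ hr', hloc]
      have hsub : r + 1 - p.start τ = (r - p.start τ) + 1 := by omega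
      by_cases hr2 : p.top ≤ r + 1
      · -- the last row
        have hst := start_top p hp τ
        have hN := hp.N_pos
        have hlast : r - p.start τ + 1 = 3 * p.t τ * p.N := by omega
        obtain ⟨N', hN'⟩ : ∃ N', p.N = N' + 1 := ⟨p.N - 1, by omega⟩
        have huniq : (r - p.start τ) / (3 * p.t τ) = N' ∧
            (r - p.start τ) % (3 * p.t τ) = 3 * p.t τ - 1 := by
          rw [Nat.div_mod_unique ht3]
          refine ⟨?_, by omega⟩
          rw [hN', Nat.mul_add] at hlast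
          omega
        rw [xo hr2, oxs hτ, huniq.1, huniq.2, if_neg (by omega), hN']
      · have hr3 : r + 1 < p.top := by omega
        rw [xs hτ hr3, hsub]
        by_cases hlt : (r - p.start τ) % (3 * p.t τ) + 1 < 3 * p.t τ
        · obtain ⟨e1, e2⟩ := step_lt hlt
          rw [if_pos hlt, e1, e2]
        · obtain ⟨e1, e2⟩ := step_eq (n := r - p.start τ) ht3 (by omega)
          rw [if_neg hlt, e1, e2]
  · -- x_zero
    intro c r h1 h2
    by_cases hr : p.top ≤ r
    · rw [xo hr]
      have hmem : c < p.width ∧ p.top ≤ r ∧ r < p.top + (p.nX * p.m) ^ 2 := by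
        rcases (mem_region p).1 h1 with h | h
        · omega
        · exact h
      have hnot : (c, r - 1) ∉ p.region := by
        rcases h2 with h2 | h2
        · omega
        · exact h2
      have hreq : r = p.top := by
        by_contra hne
        exact hnot ((mem_region p).2 (Or.inr ⟨hmem.1, by omega, by omega⟩))
      unfold Par.ox
      rw [dif_neg]
      rintro ⟨τ, hτ⟩
      refine hnot ((mem_region p).2 (Or.inl ⟨hmem.1, by omega, τ, hτ, ?_⟩))
      have hst := start_top p hp τ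
      have h3 : 0 < 3 * p.t τ * p.N := by
        have := hp.t_pos τ
        have := hp.N_pos
        positivity
      omega
    · have hr' : r < p.top := by omega
      obtain ⟨hw, τ, hτ, hs⟩ := strip h1 hr'
      have hreq : r = p.start τ := by
        by_contra hne
        rcases h2 with h2 | h2
        · omega
        · exact h2 ((mem_region p).2 (Or.inl ⟨hw, by omega, τ, hτ, by omega⟩))
      rw [xs hτ hr', hreq, Nat.sub_self, Nat.zero_div, Nat.zero_mod, sx_zero]
  · -- y_eq
    intro c r h1 h2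
    by_cases hr : p.top ≤ r
    · rw [yo hr, yo hr, xo hr, tto hr, sum_range_succ]
      simp [Tile.outY]
    · have hr' : r < p.top := by omega
      obtain ⟨-, τ, hτ, hs⟩ := strip h1 hr'
      obtain ⟨-, τ', hτ', hs'⟩ := strip h2 hr'
      obtain ⟨n1, n2, n3, n4⟩ := next p hp hτ
      have hττ : τ' = τ := Fin.ext (by rw [← hτ'.1, n1, hτ.1])
      subst hττ
      have ht3 : 0 < 3 * p.t τ' := by
        have := hp.t_pos τ'
        omega
      have hρ : (r - p.start τ') % (3 * p.t τ') < 3 * p.t τ' := Nat.mod_lt _ ht3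
      have hc : p.cOf c + 1 < 3 * p.t τ' ^ 2 := by
        rw [← n4]
        exact hτ'.2.2.2
      rw [ys hτ' hr', ts hτ hr', xs hτ hr', ys hτ hr', n2, n3, n4]
      exact (hY F V p hp τ' (p.Iof c) (p.Jof c) (p.cOf c) ((r - p.start τ') / (3 * p.t τ'))
        ((r - p.start τ') % (3 * p.t τ')) hc hρ).symm
  · -- y_zero
    intro c r h1 h2
    by_cases hr : p.top ≤ r
    · rw [yo hr]
      have hmem : c < p.width ∧ p.top ≤ r ∧ r < p.top + (p.nX * p.m) ^ 2 := by
        rcases (mem_region p).1 h1 with h | h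
        · omega
        · exact h
      rcases Nat.eq_zero_or_pos c with h0 | h0
      · rw [h0, range_zero, sum_empty]
      · exfalso
        rcases h2 with h2 | h2
        · omega
        · exact h2 ((mem_region p).2 (Or.inr ⟨by omega, by omega, by omega⟩))
    · have hr' : r < p.top := by omega
      obtain ⟨hw, τ, hτ, hs⟩ := strip h1 hr'
      have hc0 : p.cOf c = 0 := by
        by_contra hne
        obtain ⟨c', rfl⟩ : ∃ c', c = c' + 1 := by
          rcases Nat.eq_zero_or_pos c with h0 | h0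
          · exfalso
            apply hne
            rw [h0]
            exact Nat.zero_mod _
          · exact ⟨c - 1, by omega⟩
        have hp' := prev p hτ hne
        rcases h2 with h2 | h2
        · omega
        · exact h2 ((mem_region p).2 (Or.inl ⟨by omega, hr', τ, hp', hs⟩))
      rw [ys hτ hr', hc0, sy_zero p hp]

end Pool.Agent.U429.TG.GRID
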